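import Pool.Agent.Y542.SGT.Tor
import Pool.Agent.Y945.SG.Cob
import Pool.Agent.Y79.SG.Lot
import Pool.Agent.Y79.SG.Coc

/-!
# Elements of order two of the Tate-Shafarevich group of `y² = x³ + b x`, `b` in the base field

Port of `Y79/SG/{Coc,Lot}`, `Y945/SG/Cob`, `Y542/SGT/Tor` (there for curves with integral coefficients) to the
curves `y² = x³ + b x` and the classes `d` with `b`, `d` in the base field.
-/

set_option autoImplicit false
set_option linter.unusedSectionVars false

namespace Pool.Agent.D0H92.Q4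

open WeierstrassCurve NumberField IsDedekindDomain

open Pool.Agent.TH841.SH.D (Pt act Gal Coch IsCoc IsCob LocTriv cob cob_zero)
open Pool.Agent.TH841.NF.D (Sha shaCoc)
open Pool.Agent.Y668 (Wt al Wt_eqn al_add al_ne al_some)

/-- the curve `y² = x³ + b x` -/
abbrev WB {F : Type} [Field F] (b : F) : WeierstrassCurve F := Wt 0 b

/-- a point `(X, Y)` of `y² = x³ - 4 b x` over `L` with `0 ≠ X ∈ d L*²` -/
def LocB {L : Type} [Field L] (b d : L) : Prop :=
  ∃ X Y r : L, X ≠ 0 ∧ Y ^ 2 = X ^ 3 - 4 * b * X ∧ X = d * r ^ 2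

section

variable {F : Type} [Field F]

lemma ns0 {b : F} (hb : b ≠ 0) (L : Type) [Field L] [Algebra F L] :
    ((WB b).baseChange L).toAffine.Nonsingular 0 0 := by
  rw [Affine.nonsingular_zero]
  refine ⟨?_, Or.inr ?_⟩
  · exact map_zero (algebraMap F L)
  · intro h0
    exact hb ((algebraMap F L).injective (by rw [map_zero]; exact h0))

/-- the point `(0, 0)` -/
def T0 {b : F} (hb : b ≠ 0) (L : Type) [Field L] [Algebra F L] : Pt (WB b) L :=
  Affine.Point.some 0 0 (ns0 hb L)

open Classical in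
/-- the cocycle `χ_d T` -/
noncomputable def coc {b : F} (hb : b ≠ 0) (d : F) : Coch (WB b) := fun σ =>
  if ∃ s : AlgebraicClosure F, s ^ 2 = algebraMap F (AlgebraicClosure F) d ∧ σ s ≠ s then
    T0 hb (AlgebraicClosure F) else 0

lemma exists_root (d : F) : ∃ s : AlgebraicClosure F, s ^ 2 = algebraMap F (AlgebraicClosure F) d :=
  IsAlgClosed.exists_pow_nat_eq _ two_pos

lemma ap_sq {d : F} {s : AlgebraicClosure F} (hs : s ^ 2 = algebraMap F (AlgebraicClosure F) d)
    (σ : Gal F) : σ s = s ∨ σ s = -s := by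
  apply sq_eq_sq_iff_eq_or_eq_neg.1
  rw [← map_pow, hs]
  exact σ.commutes d

variable {b : F}

lemma coc_pos (hb : b ≠ 0) {d : F} {σ : Gal F}
    (hex : ∃ s : AlgebraicClosure F, s ^ 2 = algebraMap F (AlgebraicClosure F) d ∧ σ s ≠ s) :
    coc hb d σ = T0 hb (AlgebraicClosure F) := if_pos hex

lemma coc_none (hb : b ≠ 0) {d : F} {σ : Gal F}
    (hex : ¬ ∃ s : AlgebraicClosure F, s ^ 2 = algebraMap F (AlgebraicClosure F) d ∧ σ s ≠ s) :
    coc hb d σ = 0 := if_neg hex

lemma coc_eq (hb : b ≠ 0) {d : F} {s : AlgebraicClosure F}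
    (hs : s ^ 2 = algebraMap F (AlgebraicClosure F) d) (σ : Gal F) :
    (σ s = s → coc hb d σ = 0) ∧ (σ s ≠ s → coc hb d σ = T0 hb (AlgebraicClosure F)) := by
  constructor
  · intro h1
    apply coc_none
    rintro ⟨t, h2, h3⟩
    apply h3
    rw [← hs] at h2
    rcases sq_eq_sq_iff_eq_or_eq_neg.1 h2 with rfl | rfl
    · exact h1
    · rw [map_neg, h1]
  · intro h1
    exact coc_pos hb ⟨s, hs, h1⟩

lemma T0_add (hb : b ≠ 0) : T0 hb (AlgebraicClosure F) + T0 hb (AlgebraicClosure F) = 0 := by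
  refine @Affine.Point.add_of_Y_eq (AlgebraicClosure F) _ ((WB b).baseChange (AlgebraicClosure F)).toAffine (Classical.decEq (AlgebraicClosure F))
    0 0 0 0 (ns0 hb (AlgebraicClosure F)) (ns0 hb (AlgebraicClosure F)) rfl ?_
  have h1 : ((WB b).baseChange (AlgebraicClosure F)).toAffine.a₁ = 0 := map_zero (algebraMap F (AlgebraicClosure F))
  have h3 : ((WB b).baseChange (AlgebraicClosure F)).toAffine.a₃ = 0 := map_zero (algebraMap F (AlgebraicClosure F))
  rw [Affine.negY, h1, h3]
  ring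

lemma act_T0' (hb : b ≠ 0) (σ : Gal F) :
    act (WB b) σ.toAlgHom (T0 hb (AlgebraicClosure F)) = T0 hb (AlgebraicClosure F) := by
  have h1 : act (WB b) σ.toAlgHom (T0 hb (AlgebraicClosure F)) = (Affine.Point.some (σ 0) (σ 0)
    ((Affine.baseChange_nonsingular (WB b) σ.toAlgHom.injective ..).mpr (ns0 hb (AlgebraicClosure F))) :
      Pt (WB b) (AlgebraicClosure F)) := rfl
  rw [h1]
  unfold T0
  congr 1
  · exact map_zero σ
  · exact map_zero σ

lemma coc_coc (hb : b ≠ 0) (d : F) : IsCoc (WB b) (coc hb d) := by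
  classical
  obtain ⟨s, hs⟩ := exists_root (F := F) d
  constructor
  · have h1 : coc hb d = (fun x : AlgebraicClosure F => if x = s then (0 : Pt (WB b) (AlgebraicClosure F)) else T0 hb (AlgebraicClosure F)) ∘
        (fun σ : Gal F => σ s) := by
      funext σ
      show coc hb d σ = if σ s = s then 0 else T0 hb (AlgebraicClosure F)
      split_ifs with h2
      · exact (coc_eq hb hs σ).1 h2
      · exact (coc_eq hb hs σ).2 h2
    rw [h1]
    exact (Pool.Agent.Y79.SG.lc_apply s).comp _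
  · intro σ τ
    have hm : (σ * τ) s = σ (τ s) := rfl
    rcases ap_sq hs τ with h1 | h1
    · rw [(coc_eq hb hs τ).1 h1, map_zero, add_zero]
      rw [h1] at hm
      by_cases h2 : σ s = s
      · rw [(coc_eq hb hs σ).1 h2, (coc_eq hb hs (σ * τ)).1 (hm.trans h2)]
      · rw [(coc_eq hb hs σ).2 h2, (coc_eq hb hs (σ * τ)).2 (by rw [hm]; exact h2)]
    · by_cases h0 : -s = s
      · rw [h0] at h1
        rw [(coc_eq hb hs τ).1 h1, map_zero, add_zero]
        rw [h1] at hm
        by_cases h2 : σ s = s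
        · rw [(coc_eq hb hs σ).1 h2, (coc_eq hb hs (σ * τ)).1 (hm.trans h2)]
        · rw [(coc_eq hb hs σ).2 h2, (coc_eq hb hs (σ * τ)).2 (by rw [hm]; exact h2)]
      · rw [(coc_eq hb hs τ).2 (by rw [h1]; exact h0), act_T0']
        rw [h1, map_neg] at hm
        by_cases h2 : σ s = s
        · rw [h2] at hm
          rw [(coc_eq hb hs σ).1 h2, (coc_eq hb hs (σ * τ)).2 (by rw [hm]; exact h0), zero_add]
        · have h3 : σ s = -s := (ap_sq hs σ).resolve_left h2
          rw [h3, neg_neg] at hm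
          rw [(coc_eq hb hs σ).2 h2, (coc_eq hb hs (σ * τ)).1 hm, T0_add]

lemma coc_two (hb : b ≠ 0) (d : F) : coc hb d + coc hb d = 0 := by
  obtain ⟨s, hs⟩ := exists_root (F := F) d
  funext σ
  show coc hb d σ + coc hb d σ = 0
  by_cases h1 : σ s = s
  · rw [(coc_eq hb hs σ).1 h1, add_zero]
  · rw [(coc_eq hb hs σ).2 h1, T0_add]

end

/-! ### local triviality -/

section

variable {k : Type} [Field k] [CharZero k]

lemma act_some' (W : WeierstrassCurve k) {F L : Type} [Field F] [Field L] [Algebra k F]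
    [Algebra k L] (φ : F →ₐ[k] L) {x y : F} (h : (W.baseChange F).toAffine.Nonsingular x y) :
    act W φ (Affine.Point.some x y h) =
      Affine.Point.some (φ x) (φ y) ((Affine.baseChange_nonsingular W φ.injective ..).mpr h) := rfl

lemma some_congr {L : Type} [Field L] (W : WeierstrassCurve.Affine L) {x y x' y' : L}
    (h : W.Nonsingular x y) (h' : W.Nonsingular x' y') (hx : x = x') (hy : y = y') :
    (Affine.Point.some x y h : W.Point) = Affine.Point.some x' y' h' := by
  subst hx hy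
  rfl

section

variable {b : k} {L : Type} [Field L] [Algebra k L]

lemma wa1 : ((WB b).baseChange L).toAffine.a₁ = 0 := map_zero (algebraMap k L)

lemma wa3 : ((WB b).baseChange L).toAffine.a₃ = 0 := map_zero (algebraMap k L)

lemma wa6 : ((WB b).baseChange L).toAffine.a₆ = 0 := map_zero (algebraMap k L)

lemma wa2 : ((WB b).baseChange L).toAffine.a₂ = 0 := map_zero (algebraMap k L)

lemma wa4 : ((WB b).baseChange L).toAffine.a₄ = algebraMap k L b := rfl

lemma hne {b : k} (h : b ≠ 0) (L : Type) [Field L] [Algebra k L] : algebraMap k L b ≠ 0 :=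
  (map_ne_zero _).2 h

/-- the points `(x, s x)` -/
lemma nons (h : b ≠ 0) {s x : L} (hs : s ≠ 0) (hx : x * (s ^ 2 - x) = algebraMap k L b) :
    ((WB b).baseChange L).toAffine.Nonsingular x (s * x) := by
  have : CharZero L := charZero_of_injective_algebraMap (algebraMap k L).injective
  have hx0 : x ≠ 0 := by
    rintro rfl
    rw [zero_mul] at hx
    exact hne h L hx.symm
  rw [Affine.nonsingular_iff', Affine.equation_iff', wa1, wa2, wa3, wa4, wa6]
  refine ⟨?_, Or.inr ?_⟩
  · rw [← hx]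
    ring
  · have : (2 : L) * (s * x) ≠ 0 := mul_ne_zero two_ne_zero (mul_ne_zero hs hx0)
    simpa using this

/-- the point `(x, s x)` -/
def mkP (h : b ≠ 0) {s x : L} (hs : s ≠ 0)
    (hx : x * (s ^ 2 - x) = algebraMap k L b) : Pt (WB b) L :=
  Affine.Point.some x (s * x) (nons h hs hx)

/-- `(0, 0) + (x, s x) = (x', -s x')`, `x + x' = s ^ 2` -/
lemma add_T0 (h : b ≠ 0) {s x : L} (hs : s ≠ 0)
    (hx : x * (s ^ 2 - x) = algebraMap k L b) {x' y' : L}
    (hx' : x' = s ^ 2 - x) (hy' : y' = - s * x')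
    (hn : ((WB b).baseChange L).toAffine.Nonsingular x' y') :
    T0 h L + mkP h hs hx = Affine.Point.some x' y' hn := by
  have hx0 : x ≠ 0 := by
    rintro rfl
    rw [zero_mul] at hx
    exact hne h L hx.symm
  have h1 : (0 : L) ≠ x := fun h2 => hx0 h2.symm
  let _ : DecidableEq L := Classical.decEq L
  have hsl : ((WB b).baseChange L).toAffine.slope 0 x 0 (s * x) = s := by
    rw [Affine.slope_of_X_ne h1, zero_sub, zero_sub, neg_div_neg_eq, mul_div_cancel_right₀ _ hx0]
  refine Eq.trans (@Affine.Point.add_of_X_ne L _ ((WB b).baseChange L).toAffine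
    (Classical.decEq L) 0 x 0 (s * x) (ns0 h L) (nons h hs hx) h1) ?_
  refine some_congr _ _ _ ?_ ?_
  · rw [hsl, Affine.addX, wa1, wa2, hx']
    ring
  · rw [hsl, Affine.addY, Affine.negAddY, Affine.negY, Affine.addX, wa1, wa2, wa3, hy', hx']
    ring

end

lemma act_T0 {b : k} (h : b ≠ 0) {F L : Type} [Field F] [Field L] [Algebra k F]
    [Algebra k L] (φ : F →ₐ[k] L) : act (WB b) φ (T0 h F) = T0 h L := by
  rw [T0, act_some']
  exact some_congr _ _ _ (map_zero φ) (map_zero φ)

/-- the geometric form -/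
lemma lot_aux {b : k} (h : b ≠ 0) (d : k) {F : Type} [Field F] [Algebra k F]
    (ι : AlgebraicClosure k →ₐ[k] F) (X' Y' r' : F) (hX0 : X' ≠ 0)
    (eX : X' = algebraMap k F d * r' ^ 2) (eY : Y' ^ 2 = X' ^ 3 - 4 * algebraMap k F b * X') :
    ∃ P : Pt (WB b) F, ∀ (τ' : F →ₐ[k] F) (σ : Gal k), τ' X' = X' → τ' Y' = Y' → τ' r' = r' →
      (∀ z, τ' (ι z) = ι (σ z)) → act (WB b) ι (coc h d σ) = act (WB b) τ' P - P := by
  have hF0 : CharZero F := charZero_of_injective_algebraMap (algebraMap k F).injective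
  obtain ⟨s0, hs0⟩ := exists_root (F := k) d
  have hq : (ι s0) ^ 2 = algebraMap k F d := by
    rw [← map_pow, hs0]
    exact ι.commutes d
  obtain ⟨s, hs⟩ : ∃ s : F, s = r' * ι s0 := ⟨_, rfl⟩
  have hs2 : s ^ 2 = X' := by
    rw [hs, mul_pow, hq, eX]
    ring
  have hsne : s ≠ 0 := by
    intro h0
    rw [h0] at hs2
    apply hX0
    rw [← hs2]
    ring
  have h20 : (2 : F) ≠ 0 := two_ne_zero
  obtain ⟨x, hxdef⟩ : ∃ x : F, x = (X' + Y' / s) / 2 := ⟨_, rfl⟩
  have hx : x * (s ^ 2 - x) = algebraMap k F b := by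
    have h3 : (Y' / s) ^ 2 = X' ^ 2 - 4 * algebraMap k F b := by
      rw [div_pow, hs2, eY, div_eq_iff hX0]
      ring
    have h4 : 4 * (x * (s ^ 2 - x)) = X' ^ 2 - (Y' / s) ^ 2 := by
      rw [hs2, hxdef]
      field_simp
      ring
    have h40 : (4 : F) ≠ 0 := by norm_num
    apply mul_left_cancel₀ h40
    rw [h4, h3]
    ring
  refine ⟨mkP (k := k) h hsne hx, fun τ' σ hτX hτY hτr hτι => ?_⟩
  have hτx : τ' x = (X' + Y' / τ' s) / 2 := by
    rw [hxdef, map_div₀, map_add, map_div₀, map_ofNat, hτX, hτY]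
  have hP : act (WB b) τ' (mkP h hsne hx) =
      Affine.Point.some (τ' x) (τ' (s * x))
        ((Affine.baseChange_nonsingular (WB b) τ'.injective ..).mpr (nons h hsne hx)) := rfl
  by_cases hσ : ∃ t : AlgebraicClosure k, t ^ 2 = algebraMap k (AlgebraicClosure k) d ∧ σ t ≠ t
  · -- `σ √d = - √d`
    have hc : coc h d σ = T0 h (AlgebraicClosure k) := if_pos hσ
    have hc2 : act (WB b) ι (coc h d σ) = T0 h F := by
      rw [hc, act_T0]
    have hσ0 : σ s0 = - s0 := by
      rcases ap_sq hs0 σ with h6 | h6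
      · exfalso
        obtain ⟨t, ht, ht2⟩ := hσ
        apply ht2
        rw [← hs0] at ht
        rcases sq_eq_sq_iff_eq_or_eq_neg.1 ht with h7 | h7
        · rw [h7, h6]
        · rw [h7, map_neg, h6]
      · exact h6
    have hτs : τ' s = - s := by
      rw [hs, map_mul, hτr, hτι, hσ0, map_neg]
      ring
    have e1 : τ' x = s ^ 2 - x := by
      rw [hτx, hτs, hs2, hxdef, div_neg]
      field_simp
      ring
    exact eq_sub_of_add_eq ((congrArg (fun z => z + mkP h hsne hx) hc2).trans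
      ((add_T0 (k := k) h hsne hx e1 (by rw [map_mul, hτs]) _).trans hP.symm))
  · have hc : coc h d σ = 0 := if_neg hσ
    have hc2 : act (WB b) ι (coc h d σ) = 0 :=
      (congrArg (act (WB b) ι) hc).trans (map_zero (act (WB b) ι))
    have hσ0 : σ s0 = s0 := by
      by_contra h5
      exact hσ ⟨s0, hs0, h5⟩
    have hτs : τ' s = s := by
      rw [hs, map_mul, hτr, hτι, hσ0]
    have e1 : τ' x = x := by
      rw [hτx, hτs, hxdef]
    have e2 : act (WB b) τ' (mkP h hsne hx) = mkP h hsne hx :=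
      hP.trans (some_congr _ _ _ e1 (by rw [map_mul, hτs, e1]))
    exact hc2.trans (sub_eq_zero.2 e2).symm

theorem lot {b d : k} (h : b ≠ 0) (L : Type) [Field L] [Algebra k L]
    (hl : LocB (algebraMap k L b) (algebraMap k L d)) : LocTriv (WB b) L (coc h d) := by
  obtain ⟨X, Y, r, hX, hY, hXd⟩ := hl
  intro ι
  have hs : ∀ c : k, algebraMap L (AlgebraicClosure L) (algebraMap k L c) =
      algebraMap k (AlgebraicClosure L) c := fun c =>
    (IsScalarTower.algebraMap_apply k L (AlgebraicClosure L) c).symm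
  obtain ⟨P, hP⟩ := lot_aux h d ι (algebraMap L (AlgebraicClosure L) X)
    (algebraMap L (AlgebraicClosure L) Y) (algebraMap L (AlgebraicClosure L) r)
    (fun h0 => hX ((algebraMap L (AlgebraicClosure L)).injective (by rw [h0, map_zero])))
    (by rw [hXd, map_mul, map_pow, hs])
    (by
      rw [← map_pow, hY]
      simp only [map_sub, map_mul, map_pow, hs, map_ofNat])
  exact ⟨P, fun τ σ hτσ => hP (τ.toAlgHom.restrictScalars k) σ (τ.commutes X) (τ.commutes Y)
    (τ.commutes r) hτσ⟩

end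

/-! ### coboundaries -/

section

variable {K : Type} [Field K] [CharZero K]

open Pool.Agent.Y945.SG (isGalAC fixm)

attribute [local instance] isGalAC

/-- the equation of the curve -/
lemma eqn {b : K} {x y : AlgebraicClosure K} (h : ((WB b).baseChange (AlgebraicClosure K)).toAffine.Nonsingular x y) :
    y ^ 2 = x ^ 3 + algebraMap K (AlgebraicClosure K) b * x := by
  have h1 := (Affine.nonsingular_iff _ _).1 h |>.1
  rw [Affine.equation_iff, wa1, wa2, wa3, wa4, wa6] at h1
  linear_combination h1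

/-- a point of the curve -/
noncomputable def pt {b : K} {x y : AlgebraicClosure K} (h : ((WB b).baseChange (AlgebraicClosure K)).toAffine.Nonsingular x y) :
    Pt (WB b) (AlgebraicClosure K) := Affine.Point.some x y h

/-- the sum of `(x, y)` and `(0, 0)` -/
lemma add_T {b : K} (hb : b ≠ 0) {x y x' y' : AlgebraicClosure K}
    (h : ((WB b).baseChange (AlgebraicClosure K)).toAffine.Nonsingular x y)
    (h' : ((WB b).baseChange (AlgebraicClosure K)).toAffine.Nonsingular x' y') (hx : x ≠ 0)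
    (he : pt h' = pt h + T0 hb (AlgebraicClosure K)) :
    x' = algebraMap K (AlgebraicClosure K) b / x ∧
      y' = - (algebraMap K (AlgebraicClosure K) b * y / x ^ 2) := by
  have h1 : pt h + T0 hb (AlgebraicClosure K) =
      @HAdd.hAdd _ _ _ (@instHAdd _ (@Affine.Point.instAdd (AlgebraicClosure K) _ ((WB b).baseChange (AlgebraicClosure K)).toAffine
        (Classical.decEq (AlgebraicClosure K)))) (Affine.Point.some x y h) (Affine.Point.some 0 0 (ns0 hb (AlgebraicClosure K))) := rfl
  rw [h1, @Affine.Point.add_of_X_ne _ _ _ (Classical.decEq (AlgebraicClosure K)) _ _ _ _ _ _ hx] at he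
  have he := (Affine.Point.some.injEq _ _ _ _ _ _).mp he
  have e0 := eqn h
  obtain ⟨he1, he2⟩ := he
  rw [@Affine.slope_of_X_ne _ _ _ (Classical.decEq (AlgebraicClosure K)) _ _ _ _ hx, Affine.addX, wa1, wa2] at he1
  rw [@Affine.slope_of_X_ne _ _ _ (Classical.decEq (AlgebraicClosure K)) _ _ _ _ hx, Affine.addY, Affine.negY,
    Affine.negAddY, Affine.addX, wa1, wa2, wa3] at he2
  constructor
  · rw [he1, sub_zero, sub_zero, sub_zero, zero_mul, add_zero]
    field_simp
    linear_combination x * e0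
  · rw [he2, sub_zero, sub_zero]
    field_simp
    linear_combination (-x ^ 2 * y) * e0

theorem cobd {b d : K} (hb : b ≠ 0) (hd : d ≠ 0) (hc0 : IsCob (WB b) (coc hb d)) :
    IsSquare d ∨ IsSquare (d * (-4 * b)) ∨ LocB b d := by
  classical
  obtain ⟨P, hP⟩ := hc0
  obtain ⟨s, hs⟩ := exists_root (F := K) d
  have hd' : algebraMap K (AlgebraicClosure K) d ≠ 0 := hne hd _
  have hs0 : s ≠ 0 := by
    rintro rfl
    apply hd'
    rw [← hs]; ring
  have hsσ : ∀ σ : Gal K, σ s = s ∨ σ s = -s := ap_sq hs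
  have hcoc : ∀ σ : Gal K, (σ s = s → coc hb d σ = 0) ∧
      (σ s ≠ s → coc hb d σ = T0 hb (AlgebraicClosure K)) := coc_eq hb hs
  -- if all the automorphisms fix `s`
  have hsq : (∀ σ : Gal K, σ s = s) → IsSquare d := by
    intro h
    obtain ⟨y, hy⟩ := fixm s h
    refine ⟨y, ?_⟩
    apply (algebraMap K (AlgebraicClosure K)).injective
    rw [map_mul, hy, ← pow_two, hs]
  have hT0 : T0 hb (AlgebraicClosure K) ≠ 0 := by
    intro h
    exact Affine.Point.some_ne_zero _ h
  have hfix0 : (∀ σ : Gal K, act (WB b) σ.toAlgHom P = P) → IsSquare d := by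
    intro h
    apply hsq
    intro σ
    by_contra hne
    have h1 := hP σ
    rw [(hcoc σ).2 hne, h σ, sub_self] at h1
    exact hT0 h1
  have hact0 : ∀ σ : Gal K, σ s = s → act (WB b) σ.toAlgHom P = P := by
    intro σ h
    have h1 := hP σ
    rw [(hcoc σ).1 h] at h1
    exact (sub_eq_zero.1 h1.symm)
  have hact1 : ∀ σ : Gal K, σ s ≠ s → act (WB b) σ.toAlgHom P = P + T0 hb (AlgebraicClosure K) := by
    intro σ h
    have h1 := hP σ
    rw [(hcoc σ).2 h] at h1
    rw [h1]
    abel
  rcases P with _ | ⟨x, y, hxy⟩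
  · left
    apply hfix0
    intro σ
    exact map_zero _
  by_cases hx : x = 0
  · left
    apply hfix0
    intro σ
    subst hx
    have e0 := eqn hxy
    have hy : y = 0 := by
      have : y ^ 2 = 0 := by rw [e0]; ring
      exact pow_eq_zero_iff two_ne_zero |>.1 this
    subst hy
    rw [act_some']
    congr 1
    · exact map_zero σ
    · exact map_zero σ
  have e0 := eqn hxy
  obtain ⟨B, hB⟩ : ∃ B, B = algebraMap K (AlgebraicClosure K) b := ⟨_, rfl⟩
  obtain ⟨D, hD⟩ : ∃ D, D = algebraMap K (AlgebraicClosure K) d := ⟨_, rfl⟩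
  have hBσ : ∀ σ : Gal K, σ B = B := fun σ => by rw [hB]; exact σ.commutes b
  have hc : B ≠ 0 := by rw [hB]; exact hne hb _
  have f0 : ∀ σ : Gal K, σ s = s → σ x = x ∧ σ y = y := by
    intro σ h
    have h1 := hact0 σ h
    rw [act_some'] at h1
    exact (Affine.Point.some.injEq _ _ _ _ _ _).mp h1
  have f1 : ∀ σ : Gal K, σ s ≠ s → σ x = B / x ∧ σ y = - (B * y / x ^ 2) := by
    intro σ h
    have h1 := hact1 σ h
    rw [act_some'] at h1
    rw [hB]
    exact add_T hb _ _ hx h1
  rw [← hB] at e0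
  rw [← hD] at hs hd'
  right
  by_cases hy : y = 0
  · left
    subst hy
    have e1 : x ^ 2 + B = 0 := by
      have h1 : x * (x ^ 2 + B) = 0 := by
        linear_combination -e0
      exact (mul_eq_zero.1 h1).resolve_left hx
    obtain ⟨r, hr⟩ : ∃ r : K, algebraMap K (AlgebraicClosure K) r = (2 * x) * s := by
      apply fixm
      intro σ
      have e4 : σ (2 : AlgebraicClosure K) = 2 := map_ofNat σ 2
      by_cases h : σ s = s
      · rw [map_mul, map_mul, (f0 σ h).1, h, e4]
      · rw [map_mul, map_mul, (f1 σ h).1, (hsσ σ).resolve_left h, e4]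
        have e2 : B / x = - x := by
          rw [div_eq_iff hx]
          linear_combination e1
        rw [e2]
        ring
    refine ⟨r, ?_⟩
    apply (algebraMap K (AlgebraicClosure K)).injective
    rw [map_mul, map_mul, map_mul, hr, map_neg, map_ofNat, ← hB, ← hD]
    linear_combination (-4 * s ^ 2) * e1 + (4 * B) * hs
  · right
    obtain ⟨r, hr⟩ : ∃ r : K, algebraMap K (AlgebraicClosure K) r = (y / x) * s := by
      apply fixm
      intro σ
      by_cases h : σ s = s
      · rw [map_mul, map_div₀, (f0 σ h).1, (f0 σ h).2, h]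
      · rw [map_mul, map_div₀, (f1 σ h).1, (f1 σ h).2, (hsσ σ).resolve_left h]
        field_simp
    obtain ⟨Y, hY⟩ : ∃ Y : K, algebraMap K (AlgebraicClosure K) Y = y * (B - x ^ 2) / x ^ 2 := by
      apply fixm
      intro σ
      by_cases h : σ s = s
      · simp only [map_div₀, map_mul, map_sub, map_pow, (f0 σ h).1, (f0 σ h).2, hBσ]
      · simp only [map_div₀, map_mul, map_sub, map_pow, (f1 σ h).1, (f1 σ h).2, hBσ]
        field_simp
        ring
    have hr0 : r ≠ 0 := by
      rintro rfl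
      rw [map_zero] at hr
      exact mul_ne_zero (div_ne_zero hy hx) hs0 hr.symm
    have hX : algebraMap K (AlgebraicClosure K) (d * (r / d) ^ 2) = y ^ 2 / x ^ 2 := by
      rw [map_mul, map_pow, map_div₀, hr, ← hD]
      field_simp
      linear_combination hs
    obtain ⟨X, hXd⟩ : ∃ X : K, X = d * (r / d) ^ 2 := ⟨_, rfl⟩
    rw [← hXd] at hX
    refine ⟨X, Y, r / d, ?_, ?_, hXd⟩
    · rw [hXd]
      exact mul_ne_zero hd (pow_ne_zero 2 (div_ne_zero hr0 hd))
    · apply (algebraMap K (AlgebraicClosure K)).injective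
      simp only [map_sub, map_mul, map_pow, hY, hX, map_ofNat, ← hB]
      have hy2 : y ^ 2 / x ^ 2 = x + B / x := by
        rw [e0]
        field_simp
      have hy3 : (y * (B - x ^ 2) / x ^ 2) ^ 2 = y ^ 2 / x ^ 2 * ((B - x ^ 2) / x) ^ 2 := by
        field_simp
      rw [hy3, hy2]
      field_simp
      ring

end

/-! ### the classes of the points -/

section

variable {F : Type} [Field F] [CharZero F]

theorem tors {b d : F} (hb : b ≠ 0) (hbs : ¬ IsSquare b) (hcs : ¬ IsSquare (-4 * b))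
    (hfin : Finite (WB b).toAffine.Point) (hloc : LocB b d) :
    IsSquare d ∨ IsSquare (d * (-4 * b)) := by
  classical
  obtain ⟨X, Y, r, hX, hY, hXd⟩ := hloc
  have hc' : -4 * b ≠ 0 := mul_ne_zero (by norm_num) hb
  have e0 : (-2 * (0 : F)) = 0 := by ring
  have e1 : (0 : F) ^ 2 - 4 * b = -4 * b := by ring
  have hD : (0 : F) ^ 2 - 4 * (-4 * b) ≠ 0 := by
    have : (0 : F) ^ 2 - 4 * (-4 * b) = 16 * b := by ring
    rw [this]
    exact mul_ne_zero (by norm_num) hb
  have hDs : ¬ IsSquare ((0 : F) ^ 2 - 4 * (-4 * b)) := by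
    rintro ⟨s, hs⟩
    apply hbs
    refine ⟨s / 4, ?_⟩
    field_simp
    linear_combination hs
  have hf := Pool.Agent.Y542.SGT.fin_iso (a := 0) hb (by rw [e1]; exact hc') hfin
  rw [e0, e1] at hf
  have hY' : Y ^ 2 = X ^ 3 + 0 * X ^ 2 + (-4 * b) * X := by
    rw [hY]; ring
  have hn := Pool.Agent.Y542.SGT.ns_of hc' hD hY'
  have hr : r ≠ 0 := by
    rintro rfl
    apply hX
    rw [hXd]; ring
  have hal : al 0 (-4 * b) (Affine.Point.some X Y hn) = X := by
    rw [al_some]
    simp [hX]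
  have sq_of : ∀ (u v : F), v ≠ 0 → IsSquare (X * (u * v ^ 2)) → IsSquare (d * u) := by
    rintro u v hv ⟨s, hs⟩
    refine ⟨s / (r * v), ?_⟩
    rw [hXd] at hs
    field_simp
    linear_combination hs
  obtain ⟨Q, hQ | hQ⟩ := Pool.Agent.Y542.SGT.half hc' hD hcs hDs hf (Affine.Point.some X Y hn)
  · left
    have h1 := al_add (two_ne_zero (α := F)) Q Q
    rw [← hQ, hal] at h1
    obtain ⟨s, hs⟩ := h1
    have h2 := sq_of 1 (al _ _ Q) (al_ne hc' Q) ⟨s, by linear_combination hs⟩
    simpa using h2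
  · right
    have h1 := al_add (two_ne_zero (α := F)) Q Q
    have h3 := al_add (two_ne_zero (α := F)) (Affine.Point.some 0 0
      (Pool.Agent.Y542.SGT.ns_of (x := 0) (y := 0) hc' hD (by ring))) (Q + Q)
    rw [← hQ, hal] at h3
    have h4 : al 0 (-4 * b) (Affine.Point.some 0 0
      (Pool.Agent.Y542.SGT.ns_of (x := 0) (y := 0) hc' hD (by ring))) = -4 * b := by
      rw [al_some]
      simp
    rw [h4] at h3
    obtain ⟨s, hs⟩ := h1
    obtain ⟨t, ht⟩ := h3
    set α := al 0 (-4 * b) Q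
    set β := al 0 (-4 * b) (Q + Q)
    have hα : α ≠ 0 := al_ne hc' Q
    have hβ : β ≠ 0 := al_ne hc' (Q + Q)
    refine sq_of _ (α * β) (mul_ne_zero hα hβ) ?_
    refine ⟨s * t, ?_⟩
    linear_combination (X * (-4 * b) * β) * hs + s * s * ht

end

/-! ### elements of order two -/

/-- a nontrivial element of `Ш[2]` from an everywhere locally trivial class -/
theorem sha_ex' {K : Type} [Field K] [NumberField K] {b d : K} (hb : b ≠ 0)
    (nb : ¬ IsSquare b) (nab : ¬ IsSquare (-4 * b)) (hd : d ≠ 0) (n1 : ¬ IsSquare d)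
    (n2 : ¬ IsSquare (d * (-4 * b)))
    (hl : ∀ v : HeightOneSpectrum (𝓞 K),
      LocB (algebraMap K (v.adicCompletion K) b) (algebraMap K (v.adicCompletion K) d))
    (hr : ∀ v : InfinitePlace K, LocB (algebraMap K v.Completion b) (algebraMap K v.Completion d))
    (hf : Finite (WB b).toAffine.Point) : ∃ x : Sha (WB b), x ≠ 0 ∧ x + x = 0 := by
  have hc : coc hb d ∈ shaCoc (WB b) :=
    ⟨coc_coc hb d, fun v => lot hb _ (hl v), fun v => lot hb _ (hr v)⟩
  let N : AddSubgroup (shaCoc (WB b)) := (cob (WB b)).addSubgroupOf (shaCoc (WB b))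
  let y : shaCoc (WB b) := ⟨coc hb d, hc⟩
  refine ⟨(QuotientAddGroup.mk y : shaCoc (WB b) ⧸ N), ?_, ?_⟩
  · intro h0
    have h0' : (QuotientAddGroup.mk y : shaCoc (WB b) ⧸ N) = 0 := h0
    rw [QuotientAddGroup.eq_zero_iff, AddSubgroup.mem_addSubgroupOf] at h0'
    rcases cobd hb hd h0' with h | h | h
    · exact n1 h
    · exact n2 h
    · rcases tors hb nb nab hf h with h | h
      · exact n1 h
      · exact n2 h
  · have h5 : (QuotientAddGroup.mk (y + y) : shaCoc (WB b) ⧸ N) = 0 := by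
      rw [QuotientAddGroup.eq_zero_iff, AddSubgroup.mem_addSubgroupOf]
      have h6 : ((y + y : shaCoc (WB b)) : Coch (WB b)) = 0 := coc_two hb d
      rw [h6]
      exact cob_zero _
    exact h5

/-- a nontrivial element of `Ш[2]` from an everywhere locally trivial class -/
theorem sha_ex {K : Type} [Field K] [NumberField K] {b d : K} (hb : b ≠ 0)
    (nb : ¬ IsSquare b) (nab : ¬ IsSquare (-4 * b)) (hd : d ≠ 0) (n1 : ¬ IsSquare d)
    (n2 : ¬ IsSquare (d * (-4 * b)))
    (hl : ∀ v : HeightOneSpectrum (𝓞 K),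
      LocB (algebraMap K (v.adicCompletion K) b) (algebraMap K (v.adicCompletion K) d))
    (hr : ∀ v : InfinitePlace K, LocB (algebraMap K v.Completion b) (algebraMap K v.Completion d))
    (hf : Finite (WB b).toAffine.Point) : ∃ x : Sha (WB b), 2 • x = 0 ∧ x ≠ 0 := by
  obtain ⟨x, h1, h2⟩ := sha_ex' hb nb nab hd n1 n2 hl hr hf
  exact ⟨x, by rw [two_nsmul]; exact h2, h1⟩

end Pool.Agent.D0H92.Q4
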