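import Pool.Agent.Y715.Z.Glo
import Pool.Agent.Y105.RZ.Fin
import Pool.Agent.D0H92.Q4.Coc

/-!
# Local points of the curves `y² = x³ - 4 b x` over the completions of `ℚ(i)`
-/

set_option autoImplicit false
set_option linter.unusedSectionVars false

open NumberField IsDedekindDomain

namespace Pool.Agent.D0H92.Q4

open Pool.Agent.Y682 (vv vv_coe exists_sqrt exists_sqrt')
open Pool.Agent.Y699
open Pool.Agent.Y715.Z (em0 ph val_z val_one val_lt em0_ne)
open H385 (ZI RQ im1 nrm)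

section

variable {L : Type} [Field L]

/-- the class of a square -/
lemma loc_sq1 {b d t y : L} (hd : IsSquare d) (hd0 : d ≠ 0) (ht : t ≠ 0)
    (hy : y ^ 2 = 1 + -4 * b / t ^ 4) : LocB b d := by
  obtain ⟨s, rfl⟩ := hd
  have hs : s ≠ 0 := fun h => hd0 (by rw [h, zero_mul])
  refine ⟨t ^ 2, t ^ 3 * y, t / s, pow_ne_zero 2 ht, ?_, ?_⟩
  · rw [mul_pow, hy]
    field_simp
    ring
  · field_simp

/-- the class of `(0, 0)` -/
lemma loc_sq2 {b d t y : L} (hd : IsSquare (d * (-4 * b))) (hd0 : d ≠ 0) (hb : -4 * b ≠ 0)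
    (ht : t ≠ 0) (hy : y ^ 2 = 1 + -4 * b * t ^ 4) : LocB b d := by
  obtain ⟨s, hs⟩ := hd
  refine ⟨-4 * b * t ^ 2, -4 * b * t * y, s * t / d, mul_ne_zero hb (pow_ne_zero 2 ht), ?_, ?_⟩
  · rw [mul_pow, hy]
    ring
  · field_simp
    linear_combination hs

end

section

variable {K : Type} [Field K] [NumberField K] (e : ZI ≃+* 𝓞 K) {z : ZI} (hz : Prime z)

/-- small elements -/
lemma exists_small {γ : WithZero (Multiplicative ℤ)} (hγ : γ ≠ 0) :
    ∃ t : (plc e hz : HeightOneSpectrum (𝓞 K)).adicCompletion K, t ≠ 0 ∧ vv (plc e hz) t < γ ∧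
      vv (plc e hz) t ≤ 1 := by
  obtain ⟨k, hk⟩ : ∃ k : ℤ, γ = WithZero.exp k := ⟨WithZero.log γ, (WithZero.exp_log hγ).symm⟩
  have h1 : ∀ n : ℕ, vv (plc e hz) (ph e hz (em0 e z) ^ n) = WithZero.exp (-(n : ℤ)) := by
    intro n
    rw [map_pow, vv_coe, val_z, ← WithZero.exp_nsmul]
    congr 1
    simp
  refine ⟨ph e hz (em0 e z) ^ ((-k).toNat + 1), pow_ne_zero _ ((map_ne_zero _).2 (em0_ne e hz.ne_zero)), ?_, ?_⟩
  · rw [h1, hk, WithZero.exp_lt_exp]
    omega
  · rw [h1, ← WithZero.exp_zero, WithZero.exp_le_exp]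
    omega

lemma four_ne : vv (plc e hz : HeightOneSpectrum (𝓞 K)) 4 ≠ 0 := by
  rw [Valuation.ne_zero_iff]
  have : CharZero ((plc e hz : HeightOneSpectrum (𝓞 K)).adicCompletion K) :=
    charZero_of_injective_algebraMap (algebraMap K _).injective
  norm_num

lemma loc_one {b d : (plc e hz : HeightOneSpectrum (𝓞 K)).adicCompletion K} (hd : IsSquare d)
    (hd0 : d ≠ 0) : LocB b d := by
  by_cases hb : b = 0
  · exact loc_sq1 (t := 1) (y := 1) hd hd0 one_ne_zero (by rw [hb]; ring)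
  have hb4 : vv (plc e hz) (-4 * b) ≠ 0 := by
    rw [map_mul, Valuation.map_neg]
    exact mul_ne_zero (four_ne e hz) ((Valuation.ne_zero_iff _).2 hb)
  obtain ⟨t, ht, h1, h2⟩ := exists_small e hz (div_ne_zero (four_ne e hz) hb4)
  have hvt : vv (plc e hz) t ≠ 0 := (Valuation.ne_zero_iff _).2 ht
  have h3 : vv (plc e hz) (-4 * b * t ^ 4) < vv (plc e hz) 4 := by
    rw [map_mul, map_pow]
    calc vv (plc e hz) (-4 * b) * vv (plc e hz) t ^ 4
        ≤ vv (plc e hz) (-4 * b) * vv (plc e hz) t := by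
          apply mul_le_mul_right
          calc vv (plc e hz) t ^ 4 = vv (plc e hz) t ^ 3 * vv (plc e hz) t := pow_succ _ 3
            _ ≤ 1 * vv (plc e hz) t := mul_le_mul_left (pow_le_one₀ zero_le h2) _
            _ = vv (plc e hz) t := one_mul _
      _ < vv (plc e hz) (-4 * b) * (vv (plc e hz) 4 / vv (plc e hz) (-4 * b)) :=
          mul_lt_mul_of_pos_left h1 (zero_lt_iff.2 hb4)
      _ = vv (plc e hz) 4 := mul_div_cancel₀ _ hb4
  obtain ⟨y, hy⟩ := exists_sqrt (plc e hz) _ h3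
  refine loc_sq1 (t := t⁻¹) (y := y) hd hd0 (inv_ne_zero ht) ?_
  rw [hy]
  field_simp

lemma loc_two {b d : (plc e hz : HeightOneSpectrum (𝓞 K)).adicCompletion K}
    (hd : IsSquare (d * (-4 * b))) (hd0 : d ≠ 0) (hb : b ≠ 0) : LocB b d := by
  have hb4 : vv (plc e hz) (-4 * b) ≠ 0 := by
    rw [map_mul, Valuation.map_neg]
    exact mul_ne_zero (four_ne e hz) ((Valuation.ne_zero_iff _).2 hb)
  obtain ⟨t, ht, h1, h2⟩ := exists_small e hz (div_ne_zero (four_ne e hz) hb4)
  have h3 : vv (plc e hz) (-4 * b * t ^ 4) < vv (plc e hz) 4 := by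
    rw [map_mul, map_pow]
    calc vv (plc e hz) (-4 * b) * vv (plc e hz) t ^ 4
        ≤ vv (plc e hz) (-4 * b) * vv (plc e hz) t := by
          apply mul_le_mul_right
          calc vv (plc e hz) t ^ 4 = vv (plc e hz) t ^ 3 * vv (plc e hz) t := pow_succ _ 3
            _ ≤ 1 * vv (plc e hz) t := mul_le_mul_left (pow_le_one₀ zero_le h2) _
            _ = vv (plc e hz) t := one_mul _
      _ < vv (plc e hz) (-4 * b) * (vv (plc e hz) 4 / vv (plc e hz) (-4 * b)) :=
          mul_lt_mul_of_pos_left h1 (zero_lt_iff.2 hb4)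
      _ = vv (plc e hz) 4 := mul_div_cancel₀ _ hb4
  obtain ⟨y, hy⟩ := exists_sqrt (plc e hz) _ h3
  exact loc_sq2 hd hd0 ((Valuation.ne_zero_iff _).1 hb4) ht hy

end

section

variable {z : ZI}

/-- the classes of the points of `y² = x (x - A) (x - B)` modulo a primary prime -/
lemma classesR (h : PP z) {A B : ZI} (hA : ¬ z ∣ A) (hB : ¬ z ∣ B) (hAB : ¬ z ∣ A - B)
    (h1 : qr z A ≠ -1) (h2 : qr z B ≠ -1) (h3 : qr z (A * B) ≠ -1) :
    ∃ u : ZI, qr z u = -1 ∧ qr z (u - A) = 1 ∧ qr z (u - B) = -1 := by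
  classical
  have := fin_RQ h
  letI := Fintype.ofFinite (RQ z)
  letI := h.fld
  have hm : ∀ a : ZI, Ideal.Quotient.mk (Ideal.span {z}) a ≠ 0 ↔ ¬ z ∣ a := fun a => by
    rw [Ne, mk_eq_zero]
  rw [qr_eq h] at h1 h2 h3
  rcases Pool.Agent.Y105.RZ.classes (F := RQ z) h.char
    (A := Ideal.Quotient.mk (Ideal.span {z}) A) (B := Ideal.Quotient.mk (Ideal.span {z}) B)
    ((hm A).2 hA) ((hm B).2 hB) (fun h' => hAB ((mk_eq_mk A B).1 h'))
    (e1 := -1) (e2 := 1) (Or.inr rfl) (Or.inl rfl) with h4 | h4 | h4 | h4 | h4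
  · obtain ⟨u, h5, h6, h7⟩ := h4
    obtain ⟨u, rfl⟩ := Ideal.Quotient.mk_surjective u
    refine ⟨u, ?_, ?_, ?_⟩
    · rw [qr_eq h]; exact h5
    · rw [qr_eq h, map_sub]; exact h6
    · rw [qr_eq h, map_sub]; exact h7
  · exact absurd h4.1 (by norm_num)
  · rw [← map_mul] at h4
    exact absurd h4.1.symm h3
  · exact absurd h4.1.symm h1
  · exact absurd h4.1.symm h2

end

section

variable {K : Type} [Field K] [NumberField K] (e : ZI ≃+* 𝓞 K) {z : ZI}

lemma val_two (h : PP z) : vv (plc e h.pr : HeightOneSpectrum (𝓞 K)) 2 = 1 := by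
  have h1 := val_one e h.pr (not_dvd_two h)
  rw [← vv_coe] at h1
  rwa [map_ofNat, map_ofNat] at h1

lemma val_four (h : PP z) : vv (plc e h.pr : HeightOneSpectrum (𝓞 K)) 4 = 1 := by
  have h1 : (4 : (plc e h.pr : HeightOneSpectrum (𝓞 K)).adicCompletion K) = 2 * 2 := by norm_num
  rw [h1, map_mul, val_two e h, one_mul]

/-- an element close to a Gaussian integer which is a nonzero square modulo `z` -/
lemma sq_close (h : PP z) {a : ZI} (ha : qr z a = 1)
    {x : (plc e h.pr : HeightOneSpectrum (𝓞 K)).adicCompletion K}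
    (hx : vv (plc e h.pr) (x - ph e h.pr (em0 e a)) < 1) : IsSquare x := by
  have ha0 : ¬ z ∣ a := by
    intro h0
    rw [qr_zero_iff.2 h0] at ha
    exact absurd ha (by norm_num)
  obtain ⟨c, hc⟩ : ∃ c, z ∣ a - c ^ 2 := by
    unfold qr at ha
    rw [if_neg ha0] at ha
    by_contra h1
    rw [if_neg h1] at ha
    exact absurd ha (by norm_num)
  have hc0 : ¬ z ∣ c := by
    intro h0
    apply ha0
    have : a = (a - c ^ 2) + c * c := by ring
    rw [this]
    exact dvd_add hc (h0.mul_left c)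
  have hvc : vv (plc e h.pr) (ph e h.pr (em0 e c)) = 1 := by
    rw [vv_coe, val_one e h.pr hc0]
  obtain ⟨y, hy⟩ := exists_sqrt' (plc e h.pr) (x := x) (y := ph e h.pr (em0 e c))
    ((Valuation.ne_zero_iff _).1 (by rw [hvc]; exact one_ne_zero)) (by
      rw [hvc, val_four e h, one_pow, mul_one]
      have e1 : x - ph e h.pr (em0 e c) ^ 2 =
          (x - ph e h.pr (em0 e a)) + ph e h.pr (em0 e (a - c ^ 2)) := by
        rw [map_sub, map_sub, map_pow, map_pow]; ring
      rw [e1]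
      refine lt_of_le_of_lt (Valuation.map_add _ _ _) (max_lt hx ?_)
      rw [vv_coe]
      exact (val_lt e h.pr _).2 hc)
  exact ⟨y, by rw [← hy, sq]⟩

lemma sq_of_qr (h : PP z) {a : ZI} (ha : qr z a = 1) :
    IsSquare (ph (K := K) e h.pr (em0 e a)) := by
  apply sq_close e h ha
  rw [sub_self, map_zero]
  exact zero_lt_one

lemma em0_im : (em0 e im1 : K) ^ 2 = -1 := by
  have h : (im1 : ZI) ^ 2 = -1 := by decide
  rw [← map_pow, h, map_neg, map_one]

lemma qr_two (h : PP z) : qr z 2 = if z.norm % 8 = 5 then -1 else 1 := by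
  have h1 : (2 : ZI) = -im1 * (1 + im1) ^ 2 := by decide
  have h2 : ¬ z ∣ 1 + im1 := fun h' => not_dvd_two h (h1 ▸ ((dvd_pow h' two_ne_zero).mul_left _))
  rw [h1, qr_mul h, qr_neg h, qr_im h, qr_sq' h h2, mul_one]
  have h3 := h.norm_mod
  split_ifs <;> first | rfl | omega

/-- the primes of good reduction -/
lemma loc_good (h : PP z) {B D : ZI} (hB : ¬ z ∣ B) (hD : ¬ z ∣ D) :
    LocB (ph (K := K) e h.pr (em0 e B)) (ph e h.pr (em0 e D)) := by
  have hvz : ∀ {a : ZI}, ¬ z ∣ a → ph (K := K) e h.pr (em0 e a) ≠ 0 := fun ha h0 =>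
    ha ((val_lt e h.pr _).1 (by rw [← vv_coe, h0, map_zero]; exact zero_lt_one))
  have hB0 := hvz hB
  have hD0 := hvz hD
  have hi : (ph (K := K) e h.pr (em0 e im1)) ^ 2 = -1 := by
    rw [← map_pow, em0_im, map_neg, map_one]
  rcases qr_cases hD with h1 | h1
  · exact loc_one e h.pr (sq_of_qr e h h1) hD0
  rcases qr_cases hB with h2 | h2
  swap
  · refine loc_two e h.pr ?_ hD0 hB0
    have h3 : qr z (D * B) = 1 := by rw [qr_mul h, h1, h2]; norm_num
    obtain ⟨s, hs⟩ := sq_of_qr (K := K) e h h3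
    rw [map_mul, map_mul] at hs
    exact ⟨2 * ph e h.pr (em0 e im1) * s, by linear_combination -4 * hs - 4 * s ^ 2 * hi⟩
  -- `B` is a square modulo `z`
  obtain ⟨γ, hγ⟩ := sq_of_qr (K := K) e h h2
  obtain ⟨c, hc⟩ : ∃ c, z ∣ B - c ^ 2 := by
    unfold qr at h2
    rw [if_neg hB] at h2
    by_contra h3
    rw [if_neg h3] at h2
    exact absurd h2 (by norm_num)
  have hc0 : ¬ z ∣ c := fun h0 => hB (by
    have : B = (B - c ^ 2) + c * c := by ring
    rw [this]; exact dvd_add hc (h0.mul_left c))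
  have h20 := not_dvd_two h
  have h2c : ¬ z ∣ 2 * c := fun h' => (h.pr.dvd_or_dvd h').elim h20 hc0
  by_cases h3 : qr z (2 * c) = -1
  · -- the point `(2 γ, 0)`
    wlog hcl : vv (plc e h.pr) (γ - ph e h.pr (em0 e c)) < 1 generalizing γ with W
    · refine W (-γ) (by rw [hγ]; ring) ?_
      have h4 : vv (plc e h.pr) ((γ - ph e h.pr (em0 e c)) * (γ + ph e h.pr (em0 e c))) < 1 := by
        have h5 : (γ - ph e h.pr (em0 e c)) * (γ + ph e h.pr (em0 e c)) =
            ph e h.pr (em0 e (B - c ^ 2)) := by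
          rw [map_sub, map_sub, hγ, map_pow, map_pow]; ring
        rw [h5, vv_coe]
        exact (val_lt e h.pr _).2 hc
      rw [not_lt] at hcl
      have h6 : -γ - ph e h.pr (em0 e c) = -(γ + ph e h.pr (em0 e c)) := by ring
      rw [h6, Valuation.map_neg]
      by_contra h7
      rw [not_lt] at h7
      rw [map_mul] at h4
      exact absurd h4 (not_lt.2 (one_le_mul hcl h7))
    have h4 : qr z (2 * c * D) = 1 := by rw [qr_mul h, h3, h1]; norm_num
    obtain ⟨ζ, hζ⟩ := sq_close e h h4 (x := 2 * γ * ph e h.pr (em0 e D)) (by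
      have h5 : 2 * γ * ph e h.pr (em0 e D) - ph e h.pr (em0 e (2 * c * D)) =
          ph e h.pr (em0 e (2 * D)) * (γ - ph e h.pr (em0 e c)) := by
        simp only [map_mul, map_ofNat]; ring
      rw [h5, map_mul, vv_coe]
      exact lt_of_le_of_lt (mul_le_mul_left (Pool.Agent.Y715.Z.val_le e h.pr _) _)
        (by rw [one_mul]; exact hcl))
    have hγ0 : γ ≠ 0 := by
      rintro rfl
      exact hB0 (by rw [hγ, mul_zero])
    have h20' : (2 : (plc e h.pr : HeightOneSpectrum (𝓞 K)).adicCompletion K) ≠ 0 :=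
      (Valuation.ne_zero_iff _).1 (by rw [val_two e h]; exact one_ne_zero)
    refine ⟨2 * γ, 0, ζ / ph e h.pr (em0 e D), mul_ne_zero h20' hγ0, ?_, ?_⟩
    · rw [hγ]; ring
    · field_simp
      linear_combination hζ
  · have h4 : qr z (2 * c) = 1 := (qr_cases h2c).resolve_right h3
    have h5 : qr z (-(2 * c)) = 1 := by rw [qr_neg h, h4]
    obtain ⟨u, hu1, hu2, hu3⟩ := classesR h (A := 2 * c) (B := -(2 * c)) h2c
      (by rwa [dvd_neg]) (by
        have : 2 * c - -(2 * c) = 2 * (2 * c) := by ring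
        rw [this]
        exact fun h' => (h.pr.dvd_or_dvd h').elim h20 h2c)
      (by rw [h4]; norm_num) (by rw [h5]; norm_num)
      (by rw [qr_mul h, h4, h5]; norm_num)
    have h6 : qr z (u * (u - 2 * c) * (u - -(2 * c))) = 1 := by
      rw [qr_mul h, qr_mul h, hu1, hu2, hu3]; norm_num
    have h7 : qr z (u ^ 3 - 4 * B * u) = 1 := by
      refine Eq.trans ?_ h6
      refine qr_per ?_
      have : u ^ 3 - 4 * B * u - u * (u - 2 * c) * (u - -(2 * c)) = (B - c ^ 2) * (-4 * u) := by ring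
      rw [this]
      exact hc.mul_right _
    have h8 : qr z (u * D) = 1 := by rw [qr_mul h, hu1, h1]; norm_num
    obtain ⟨Y, hY⟩ := sq_of_qr (K := K) e h h7
    obtain ⟨s, hs⟩ := sq_of_qr (K := K) e h h8
    have hu0 : ¬ z ∣ u := fun h0 => by
      rw [qr_zero_iff.2 h0] at hu1
      exact absurd hu1 (by norm_num)
    simp only [map_sub, map_mul, map_pow, map_ofNat] at hY hs
    refine ⟨ph e h.pr (em0 e u), Y, s / ph e h.pr (em0 e D), hvz hu0, by rw [sq, ← hY], ?_⟩
    field_simp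
    linear_combination hs

end

end Pool.Agent.D0H92.Q4
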