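import Pool.Agent.D0H10.Q4.StmB
import Pool.Agent.D0H92.Q4.Lc

/-!
# Project Q4, module B2: the converse over `ℚ(i)`

A nonzero vector in the kernel of the matrix gives a divisor `d` of `Δ` whose class is everywhere locally the class
of a point of `y² = x³ - 8 Δ x`; if there are only finitely many points over `ℚ(i)` this gives an element of order
two of the Tate-Shafarevich group.
-/

set_option autoImplicit false
set_option linter.unusedSectionVars false

open NumberField IsDedekindDomain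

namespace Pool.Agent.D0H92.Q4

open Pool.Agent.Y682 (vv vv_coe exists_sqrt exists_sqrt')
open Pool.Agent.Y699
open Pool.Agent.Y715.Z (em0 ph val_z val_one val_lt em0_ne em0_inj exp_sq)
open Pool.Agent.D0H10.Q4 (MQ dq dD cK S_KCONV)
open Pool.Agent.H304R2.EC.A1 (prim)
open H385 (ZI RQ im1 nrm)

section alg

variable {ι : Type} [Fintype ι] [DecidableEq ι] {pr : ι → ZI}

lemma z2 (a : ZMod 2) : a = 0 ∨ a = 1 := by
  revert a; decide

/-- symbols of products -/
lemma qr_DD (hp : PF pr) {S : Finset ι} {i : ι} (hi : i ∉ S) :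
    (∑ j ∈ S, em pr j i = 0 ∧ qr (pr i) (DD pr S) = 1) ∨
      (∑ j ∈ S, em pr j i = 1 ∧ qr (pr i) (DD pr S) = -1) := by
  unfold DD
  induction S using Finset.induction_on with
  | empty => left; rw [Finset.sum_empty, Finset.prod_empty, qr_one (hp.pp i)]; simp
  | insert j S hj ih =>
    rw [Finset.mem_insert, not_or] at hi
    have hne : ¬ pr i ∣ pr j := fun h => hi.1 (hp.inj ((hp.pp i).eq_of_dvd (hp.pp j) h))
    rw [Finset.sum_insert hj, Finset.prod_insert hj, qr_mul (hp.pp i)]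
    have h1 := qr_cases hne
    have h2 : em pr j i = if qr (pr i) (pr j) = -1 then 1 else 0 := rfl
    rw [h2]
    rcases ih hi.2 with ⟨a, b⟩ | ⟨a, b⟩ <;> rcases h1 with c | c <;> rw [a, b, c]
    · left; norm_num
    · right; norm_num
    · right; norm_num
    · left
      refine ⟨by decide, by norm_num⟩

/-- the norm modulo eight -/
lemma norm_DD (hp : PF pr) (S : Finset ι) :
    (∑ j ∈ S, wt pr j = 0 ∧ (DD pr S).norm % 8 = 1) ∨
      (∑ j ∈ S, wt pr j = 1 ∧ (DD pr S).norm % 8 = 5) := by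
  unfold DD
  induction S using Finset.induction_on with
  | empty => left; rw [Finset.sum_empty, Finset.prod_empty]; exact ⟨rfl, by decide⟩
  | insert j S hj ih =>
    rw [Finset.sum_insert hj, Finset.prod_insert hj, Zsqrtd.norm_mul, Int.mul_emod]
    have h1 := (hp.pp j).norm_mod
    have h2 : wt pr j = if (pr j).norm % 8 = 5 then 1 else 0 := rfl
    have h3 : (pr j).norm % 8 = 1 ∨ (pr j).norm % 8 = 5 := by omega
    rw [h2]
    rcases ih with ⟨a, b⟩ | ⟨a, b⟩ <;> rcases h3 with c | c <;> rw [a, b, c]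
    · left; norm_num
    · right; norm_num
    · right; norm_num
    · left
      refine ⟨by decide, by norm_num⟩

lemma prim_four {d : ZI} (h : prim d) (hn : d.norm % 8 = 1) : (4 : ZI) ∣ d - 1 := by
  obtain ⟨h1, h2⟩ := h
  rw [Zsqrtd.norm_def] at hn
  obtain ⟨x, y⟩ := d
  simp only at h1 h2 hn
  obtain ⟨k, rfl⟩ : ∃ k, y = 2 * k := ⟨y / 2, by omega⟩
  have hx : x % 2 = 1 := by omega
  have hxx : (x * x) % 8 = 1 := by
    have h8 : x % 8 = 1 ∨ x % 8 = 3 ∨ x % 8 = 5 ∨ x % 8 = 7 := by omega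
    rcases h8 with h8 | h8 | h8 | h8 <;> rw [Int.mul_emod, h8] <;> rfl
  have hk : (k * k) % 2 = 0 := by
    have e1 : x * x - -1 * (2 * k) * (2 * k) = x * x + 4 * (k * k) := by ring
    rw [e1] at hn
    omega
  have hk2 : k % 2 = 0 := by
    rcases Int.emod_two_eq_zero_or_one k with h5 | h5
    · exact h5
    · rw [Int.mul_emod, h5] at hk
      norm_num at hk
  refine ⟨⟨(x - 1) / 4, k / 2⟩, ?_⟩
  rw [Zsqrtd.ext_iff]
  simp only [Zsqrtd.re_sub, Zsqrtd.im_sub, Zsqrtd.re_one, Zsqrtd.im_one, Zsqrtd.re_mul, Zsqrtd.im_mul]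
  have e4 : (4 : ZI).re = 4 ∧ (4 : ZI).im = 0 := ⟨rfl, rfl⟩
  rw [e4.1, e4.2]
  constructor <;> omega

/-- the set of a kernel vector -/
lemma exists_set (hp : PF pr) (h : (MQ (wt pr) (em pr) Finset.univ).det = 0) :
    ∃ S : Finset ι, S.Nonempty ∧ (∀ i ∉ S, ∑ j ∈ S, em pr j i = 0) ∧
      (∀ i ∈ S, wt pr i + ∑ j ∈ Sᶜ, em pr j i = 0) := by
  obtain ⟨v, hv0, hv⟩ := Matrix.exists_mulVec_eq_zero_iff.2 h
  set f : ι → ZMod 2 := fun i => v ⟨i, Finset.mem_univ i⟩ with hf
  have hrow : ∀ i, (wt pr i + ∑ l ∈ Finset.univ.erase i, em pr l i) * f i +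
      ∑ j ∈ Finset.univ.erase i, em pr j i * f j = 0 := by
    intro i
    have h1 := congrFun hv ⟨i, Finset.mem_univ i⟩
    rw [Matrix.mulVec, dotProduct] at h1
    have h2 : ∑ x : {x // x ∈ (Finset.univ : Finset ι)},
        MQ (wt pr) (em pr) Finset.univ ⟨i, Finset.mem_univ i⟩ x * v x =
        ∑ j : ι, (if i = j then wt pr i + ∑ l ∈ Finset.univ.erase i, em pr l i else em pr j i) * f j := by
      rw [← Finset.sum_coe_sort Finset.univ (fun j : ι =>
        (if i = j then wt pr i + ∑ l ∈ Finset.univ.erase i, em pr l i else em pr j i) * f j)]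
      refine Finset.sum_congr rfl fun x _ => ?_
      simp only [MQ, Matrix.of_apply, hf, Subtype.mk_eq_mk, Subtype.ext_iff]
    rw [h2, ← Finset.add_sum_erase _ _ (Finset.mem_univ i), if_pos rfl] at h1
    refine Eq.trans ?_ h1
    congr 1
    refine Finset.sum_congr rfl fun j hj => ?_
    rw [if_neg (Finset.ne_of_mem_erase hj).symm]
  refine ⟨Finset.univ.filter fun i => f i = 1, ?_, ?_, ?_⟩
  · by_contra hne
    rw [Finset.not_nonempty_iff_eq_empty] at hne
    apply hv0
    funext x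
    rcases z2 (v x) with h1 | h1
    · exact h1
    · exfalso
      have : (x : ι) ∈ Finset.univ.filter fun i => f i = 1 := by simp [hf, h1]
      rw [hne] at this
      exact absurd this (Finset.notMem_empty _)
  · intro i hi
    have hfi : f i = 0 := (z2 _).resolve_right fun h1 => hi (by simp [h1])
    have h1 := hrow i
    rw [hfi, mul_zero, zero_add] at h1
    rw [← h1, Finset.sum_filter, ← Finset.add_sum_erase _ _ (Finset.mem_univ i), hfi,
      if_neg zero_ne_one, zero_add]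
    refine Finset.sum_congr rfl fun j _ => ?_
    rcases z2 (f j) with h2 | h2 <;> rw [h2] <;> simp
  · intro i hi
    have hfi : f i = 1 := by simpa using hi
    have h1 := hrow i
    rw [hfi, mul_one, add_assoc, ← Finset.sum_add_distrib] at h1
    rw [← h1]
    congr 1
    rw [Finset.compl_filter, Finset.sum_filter, ← Finset.add_sum_erase _ _ (Finset.mem_univ i), hfi,
      if_neg (by simp), zero_add]
    refine Finset.sum_congr rfl fun j _ => ?_
    rcases z2 (f j) with h2 | h2 <;> rw [h2]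
    · simp
    · rw [if_neg (by simp), mul_one]
      exact (CharTwo.add_self_eq_zero _).symm

/-- the number of primes of norm `5` modulo eight in the set is even -/
lemma sum_wt (hp : PF pr) {S : Finset ι} (h1 : ∀ i ∉ S, ∑ j ∈ S, em pr j i = 0)
    (h2 : ∀ i ∈ S, wt pr i + ∑ j ∈ Sᶜ, em pr j i = 0) : ∑ i ∈ S, wt pr i = 0 := by
  have h3 : ∑ i ∈ S, (wt pr i + ∑ j ∈ Sᶜ, em pr j i) = 0 := Finset.sum_eq_zero h2
  rw [Finset.sum_add_distrib, Finset.sum_comm] at h3
  have h4 : ∑ j ∈ Sᶜ, ∑ i ∈ S, em pr j i = 0 := by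
    refine Finset.sum_eq_zero fun j hj => ?_
    rw [← h1 j (Finset.mem_compl.1 hj)]
    exact Finset.sum_congr rfl fun i _ => em_symm hp j i
  rw [h4, add_zero] at h3
  exact h3

end alg

section

variable {K : Type} [Field K] [NumberField K] (e : ZI ≃+* 𝓞 K)

/-- an element divisible exactly once by a prime is not a square -/
lemma not_sq {z a c : ZI} (hz : Prime z) (ha : a = z * c) (hc : ¬ z ∣ c) :
    ¬ IsSquare (em0 e a : K) := by
  rintro ⟨s, hs⟩
  have h1 := congrArg ((plc e hz : HeightOneSpectrum (𝓞 K)).valuation K) hs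
  rw [ha, map_mul, map_mul, val_z e hz, val_one e hz hc, mul_one, map_mul, ← sq] at h1
  exact exp_sq h1.symm

/-- `i` is not a square -/
lemma im_not_sq : ¬ IsSquare (em0 e im1 : K) := by
  rintro ⟨s, hs⟩
  have h1 : IsIntegral ℤ (s ^ 2) := by
    rw [sq, ← hs, Pool.Agent.Y715.Z.em0_apply]
    exact (e im1).isIntegral_coe
  have h2 : IsIntegral ℤ s := IsIntegral.of_pow two_pos h1
  obtain ⟨w, hw⟩ : ∃ w : 𝓞 K, algebraMap (𝓞 K) K w = s := ⟨⟨s, h2⟩, rfl⟩
  obtain ⟨u, rfl⟩ := e.surjective w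
  have h3 : im1 = u * u := by
    apply em0_inj (K := K) e
    rw [map_mul, hs, ← hw]
    rfl
  have h4 := congrArg Zsqrtd.im h3
  rw [Zsqrtd.im_mul] at h4
  have h5 : (im1 : ZI).im = 1 := rfl
  rw [h5] at h4
  have h6 : u.re * u.im + u.im * u.re = 2 * (u.re * u.im) := by ring
  rw [h6] at h4
  omega

lemma pi1_sq : (pi1 : ZI) ^ 2 = 2 * im1 := by decide

/-- the prime `1 + i` -/
lemma loc_pi1 {Δ D : ZI} (hΔ : prim Δ) (hD : (4 : ZI) ∣ D - 1) :
    LocB (ph (K := K) e pi1_prime (em0 e (2 * Δ))) (ph e pi1_prime (em0 e D)) := by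
  set v : HeightOneSpectrum (𝓞 K) := plc e pi1_prime with hv
  have hpar : ∀ a : ZI, pi1 ∣ a ↔ (a.re + a.im) % 2 = 0 := by
    intro a
    constructor
    · rintro ⟨c, rfl⟩
      have e1 : (pi1 : ZI).re = 1 ∧ (pi1 : ZI).im = 1 := ⟨rfl, rfl⟩
      rw [Zsqrtd.re_mul, Zsqrtd.im_mul, e1.1, e1.2]
      omega
    · intro h
      refine ⟨⟨(a.re + a.im) / 2, (a.im - a.re) / 2⟩, ?_⟩
      have e1 : (pi1 : ZI).re = 1 ∧ (pi1 : ZI).im = 1 := ⟨rfl, rfl⟩
      rw [Zsqrtd.ext_iff, Zsqrtd.re_mul, Zsqrtd.im_mul, e1.1, e1.2]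
      constructor <;> simp only <;> omega
  have hlt : ∀ a : ZI, pi1 ∣ a → vv v (ph e pi1_prime (em0 e (4 * a)) : v.adicCompletion K) < vv v 4 := by
    intro a ha
    rw [map_mul, map_mul, map_ofNat, map_ofNat, map_mul]
    have h1 := (val_lt (K := K) e pi1_prime a).2 ha
    rw [← vv_coe] at h1
    calc _ < vv v 4 * 1 := mul_lt_mul_of_pos_left h1 (zero_lt_iff.2 (four_ne e pi1_prime))
      _ = vv v 4 := mul_one _
  have hchar : CharZero (v.adicCompletion K) := charZero_of_injective_algebraMap (algebraMap K _).injective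
  have hne : ∀ {a : ZI}, a ≠ 0 → ph (K := K) e pi1_prime (em0 e a) ≠ 0 := fun ha =>
    (map_ne_zero _).2 (em0_ne e ha)
  have hD0 : D ≠ 0 := by
    rintro rfl
    obtain ⟨c, hc⟩ := hD
    have := congrArg Zsqrtd.re hc
    rw [Zsqrtd.re_mul] at this
    have e4 : (4 : ZI).re = 4 ∧ (4 : ZI).im = 0 := ⟨rfl, rfl⟩
    rw [e4.1, e4.2] at this
    simp only [Zsqrtd.re_sub, Zsqrtd.re_zero, Zsqrtd.re_one] at this
    omega
  obtain ⟨c, hc⟩ := hD
  by_cases hpc : pi1 ∣ c
  · -- `D` is a square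
    obtain ⟨y, hy⟩ := exists_sqrt v _ (hlt c hpc)
    refine loc_one e pi1_prime ⟨y, ?_⟩ (hne hD0)
    rw [← sq, hy, ← hc, map_sub, map_sub, map_one, map_one]
    ring
  · -- `5 D` is a square
    have h5 : pi1 ∣ 5 * c + 1 := by
      rw [hpar] at hpc ⊢
      simp only [Zsqrtd.re_add, Zsqrtd.im_add, Zsqrtd.re_mul, Zsqrtd.im_mul, Zsqrtd.re_one, Zsqrtd.im_one]
      have e4 : (5 : ZI).re = 5 ∧ (5 : ZI).im = 0 := ⟨rfl, rfl⟩
      rw [e4.1, e4.2]
      omega
    obtain ⟨y, hy⟩ := exists_sqrt v _ (hlt _ h5)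
    have hy' : y ^ 2 = 5 * ph e pi1_prime (em0 e D) := by
      have h6 : D = 4 * c + 1 := by linear_combination hc
      rw [hy, h6]
      simp only [map_add, map_mul, map_one, map_ofNat]
      ring
    -- `5 (25 + 2 Δ)` is minus a square
    have h7 : pi1 ∣ -(⟨34 + 5 * ((Δ.re - 1) / 2), 5 * (Δ.im / 2)⟩ : ZI) := by
      obtain ⟨a1, a2⟩ := hΔ
      rw [hpar]
      simp only [Zsqrtd.re_neg, Zsqrtd.im_neg]
      omega
    obtain ⟨x, hx⟩ := exists_sqrt v _ (hlt _ h7)
    have hx' : x ^ 2 = -(5 * (25 + ph e pi1_prime (em0 e (2 * Δ)))) := by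
      have h8 : (4 : ZI) * -(⟨34 + 5 * ((Δ.re - 1) / 2), 5 * (Δ.im / 2)⟩ : ZI) =
          -(5 * (25 + 2 * Δ)) - 1 := by
        obtain ⟨a1, a2⟩ := hΔ
        have e4 : (4 : ZI).re = 4 ∧ (4 : ZI).im = 0 := ⟨rfl, rfl⟩
        have e5 : (5 : ZI).re = 5 ∧ (5 : ZI).im = 0 := ⟨rfl, rfl⟩
        have e25 : (25 : ZI).re = 25 ∧ (25 : ZI).im = 0 := ⟨rfl, rfl⟩
        have e2 : (2 : ZI).re = 2 ∧ (2 : ZI).im = 0 := ⟨rfl, rfl⟩
        rw [Zsqrtd.ext_iff]
        simp only [Zsqrtd.re_sub, Zsqrtd.im_sub, Zsqrtd.re_neg, Zsqrtd.im_neg, Zsqrtd.re_mul,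
          Zsqrtd.im_mul, Zsqrtd.re_add, Zsqrtd.im_add, Zsqrtd.re_one, Zsqrtd.im_one,
          e4.1, e4.2, e5.1, e5.2, e25.1, e25.2, e2.1, e2.2]
        constructor <;> omega
      rw [hx, h8]
      simp only [map_sub, map_neg, map_add, map_mul, map_one, map_ofNat]
      ring
    have hi : (ph (K := K) e pi1_prime (em0 e im1)) ^ 2 = -1 := by
      rw [← map_pow, em0_im, map_neg, map_one]
    obtain ⟨i, hi'⟩ : ∃ i, i = ph (K := K) e pi1_prime (em0 e im1) := ⟨_, rfl⟩
    rw [← hi'] at hi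
    have hD' : ph (K := K) e pi1_prime (em0 e D) ≠ 0 := hne hD0
    have hy0 : y ≠ 0 := by
      rintro rfl
      have : (5 : v.adicCompletion K) * ph e pi1_prime (em0 e D) = 0 := by rw [← hy']; ring
      rcases mul_eq_zero.1 this with h | h
      · norm_num at h
      · exact hD' h
    -- the point with abscissa `5 (1 + i)²`
    refine ⟨5 * (2 * i), 2 * (1 + i) * x, 5 * (1 + i) / y, ?_, ?_, ?_⟩
    · refine mul_ne_zero (by norm_num) (mul_ne_zero two_ne_zero ?_)
      rintro rfl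
      norm_num at hi
    · obtain ⟨B, hB⟩ : ∃ B, B = ph (K := K) e pi1_prime (em0 e (2 * Δ)) := ⟨_, rfl⟩
      rw [← hB] at hx' ⊢
      linear_combination (8 * i) * hx' + (4 * x ^ 2 - 1000 * i) * hi
    · rw [div_pow, hy']
      have h9 : ((5 : v.adicCompletion K) * (1 + i)) ^ 2 = 50 * i := by linear_combination 25 * hi
      rw [h9]
      field_simp
      norm_num
      ring

/-- algebraically closed fields -/
lemma loc_closed {L : Type} [Field L] (hL : ∀ x : L, IsSquare x) {b d : L} (hd : d ≠ 0) : LocB b d := by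
  obtain ⟨Y, hY⟩ := hL (d ^ 3 - 4 * b * d)
  exact ⟨d, Y, 1, hd, by rw [sq, ← hY], by ring⟩

include e in
/-- the infinite places -/
lemma loc_inf (v : InfinitePlace K) {b d : K} (hd : d ≠ 0) :
    LocB (algebraMap K v.Completion b) (algebraMap K v.Completion d) := by
  refine loc_closed (fun x => ?_) ((map_ne_zero _).2 hd)
  rcases v.isReal_or_isComplex with h | h
  · exfalso
    have h1 := em0_im (K := K) e
    have h2 := congrArg (InfinitePlace.Completion.ringEquivRealOfIsReal h)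
      (congrArg (algebraMap K v.Completion) h1)
    rw [map_pow, map_pow, map_neg, map_one, map_neg, map_one] at h2
    nlinarith [sq_nonneg (InfinitePlace.Completion.ringEquivRealOfIsReal h
      (algebraMap K v.Completion (em0 e im1)))]
  · obtain ⟨s, hs⟩ := IsAlgClosed.exists_pow_nat_eq
      (InfinitePlace.Completion.ringEquivComplexOfIsComplex h x) two_pos
    exact ⟨(InfinitePlace.Completion.ringEquivComplexOfIsComplex h).symm s, by
      rw [← map_mul, ← sq, hs, RingEquiv.symm_apply_apply]⟩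

theorem kconv : S_KCONV := by
  classical
  intro K _ _ e Δ hΔ hdet hfin
  have hp : PF (fam Δ) := fam_PF hΔ.ne
  obtain ⟨S, hSn, hS1, hS2⟩ := exists_set hp (show (MQ (wt (fam Δ)) (em (fam Δ)) Finset.univ).det = 0 from hdet)
  set D := DD (fam Δ) S with hD
  set D' := DD (fam Δ) Sᶜ with hD'
  have hDD : D * D' = Δ := by
    rw [hD, hD', DD, DD, Finset.prod_mul_prod_compl]
    exact hΔ.DD
  have hΔ0 := hΔ.ne
  have hD0 : D ≠ 0 := DD_ne hp S
  have hnd : ∀ i ∉ S, ¬ fam Δ i ∣ D := by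
    intro i hi h
    rw [hD, DD, Prime.dvd_finsetProd_iff (hp.pp i).pr] at h
    obtain ⟨j, hj, h⟩ := h
    exact hi (hp.inj ((hp.pp i).eq_of_dvd (hp.pp j) h) ▸ hj)
  have hnd' : ∀ i ∈ S, ¬ fam Δ i ∣ D' := by
    intro i hi h
    rw [hD', DD, Prime.dvd_finsetProd_iff (hp.pp i).pr] at h
    obtain ⟨j, hj, h⟩ := h
    exact (Finset.mem_compl.1 hj) (hp.inj ((hp.pp i).eq_of_dvd (hp.pp j) h) ▸ hi)
  have hexact : ∀ i ∈ S, ∃ c, D = fam Δ i * c ∧ ¬ fam Δ i ∣ c := by
    intro i hi
    obtain ⟨c, hc⟩ : fam Δ i ∣ D := Finset.dvd_prod_of_mem _ hi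
    refine ⟨c, hc, ?_⟩
    rintro ⟨c', rfl⟩
    refine (hp.pp i).pr.not_isUnit (hΔ.sqf _ ⟨c' * D', ?_⟩)
    linear_combination (-1 : ZI) * hDD + D' * hc
  have hexact' : ∀ i ∉ S, ∃ c, D' = fam Δ i * c ∧ ¬ fam Δ i ∣ c := by
    intro i hi
    obtain ⟨c, hc⟩ : fam Δ i ∣ D' := Finset.dvd_prod_of_mem _ (Finset.mem_compl.2 hi)
    refine ⟨c, hc, ?_⟩
    rintro ⟨c', rfl⟩
    refine (hp.pp i).pr.not_isUnit (hΔ.sqf _ ⟨c' * D, ?_⟩)
    linear_combination (-1 : ZI) * hDD + D * hc
  obtain ⟨i₀, hi₀⟩ := hSn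
  have h2i : ∀ i, ¬ fam Δ i ∣ 2 := fun i => not_dvd_two (hp.pp i)
  have hb0 : (em0 e (2 * Δ) : K) ≠ 0 := em0_ne e (mul_ne_zero two_ne_zero hΔ0)
  have hdK : (em0 e D : K) ≠ 0 := em0_ne e hD0
  have hodd : ∀ (i : {π // π ∈ PD Δ}) (m a c : ZI), ¬ fam Δ i ∣ m → a = fam Δ i * c → ¬ fam Δ i ∣ c →
      ¬ IsSquare (em0 e (m * a) : K) := by
    intro i m a c hm ha hc
    refine not_sq e (hp.pp i).pr (c := m * c) (by rw [ha]; ring) ?_
    exact fun h => ((hp.pp i).pr.dvd_or_dvd h).elim hm hc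
  obtain ⟨c₀, hc₀, hc₀'⟩ := hexact i₀ hi₀
  have hcD' : ¬ fam Δ i₀ ∣ c₀ * D' := fun h =>
    ((hp.pp i₀).pr.dvd_or_dvd h).elim hc₀' (hnd' i₀ hi₀)
  have hΔc : Δ = fam Δ i₀ * (c₀ * D') := by linear_combination (-1 : ZI) * hDD + D' * hc₀
  have h8 : ¬ fam Δ i₀ ∣ (-8 : ZI) := by
    intro h
    have : (-8 : ZI) = -(2 * (2 * 2)) := by decide
    rw [this, dvd_neg] at h
    exact ((hp.pp i₀).pr.dvd_or_dvd h).elim (h2i _) fun h =>
      ((hp.pp i₀).pr.dvd_or_dvd h).elim (h2i _) (h2i _)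
  have e4 : ∀ a : ZI, (-4 : K) * em0 e (2 * a) = em0 e (-8 * a) := by
    intro a
    simp only [map_mul, map_neg, map_ofNat]
    ring
  have hx := sha_ex (K := K) (b := em0 e (2 * Δ)) (d := em0 e D) hb0
    (hodd i₀ 2 Δ _ (h2i i₀) hΔc hcD')
    (by rw [e4]; exact hodd i₀ (-8) Δ _ h8 hΔc hcD')
    hdK
    (by have := hodd i₀ 1 D c₀ (fun h => (hp.pp i₀).pr.not_isUnit (isUnit_of_dvd_one h)) hc₀ hc₀'
        rwa [one_mul] at this)
    (by
      rw [e4, ← map_mul]
      by_cases hu : ∃ i, i ∉ S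
      · obtain ⟨i, hi⟩ := hu
        obtain ⟨c, hc, hc'⟩ := hexact' i hi
        have h9 : D * (-8 * Δ) = (-8 * D ^ 2) * D' := by linear_combination (8 * D) * hDD
        rw [h9]
        refine hodd i _ _ c ?_ hc hc'
        intro h
        rcases (hp.pp i).pr.dvd_or_dvd h with h | h
        · have : (-8 : ZI) = -(2 * (2 * 2)) := by decide
          rw [this, dvd_neg] at h
          exact ((hp.pp i).pr.dvd_or_dvd h).elim (h2i _) fun h =>
            ((hp.pp i).pr.dvd_or_dvd h).elim (h2i _) (h2i _)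
        · exact hnd i hi ((hp.pp i).pr.dvd_of_dvd_pow h)
      · push Not at hu
        have h10 : Sᶜ = ∅ := by
          rw [Finset.compl_eq_empty_iff]
          exact Finset.eq_univ_iff_forall.2 hu
        have h11 : D' = 1 := by rw [hD', h10, DD, Finset.prod_empty]
        have h12 : D = Δ := by rw [← hDD, h11, mul_one]
        rintro ⟨s, hs⟩
        apply im_not_sq (K := K) e
        have h13 : D * (-8 * Δ) = im1 * (2 * (1 + im1) * Δ) ^ 2 := by
          have h14 : (im1 : ZI) * (2 * (1 + im1)) ^ 2 = -8 := by decide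
          rw [h12, ← h14]; ring
        rw [h13, map_mul, map_pow] at hs
        have h15 : (em0 e (2 * (1 + im1) * Δ) : K) ≠ 0 :=
          em0_ne e (mul_ne_zero (by decide) hΔ0)
        refine ⟨s / em0 e (2 * (1 + im1) * Δ), ?_⟩
        field_simp
        linear_combination hs)
    (by
      intro v
      obtain ⟨z, hz, rfl, hc⟩ : ∃ (z : ZI) (hz : Prime z), v = plc e hz ∧ (z = pi1 ∨ PP z) := by
        refine ⟨_, pg_prime e v, (plc_pg e v).symm, ?_⟩
        rcases pg_cases e v with h | h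
        · exact Or.inl h.2
        · obtain ⟨a1, a2, -, -⟩ := Pool.Agent.W164.RC.Ip_spec (Pool.Agent.H921R2.TatePole.below v).2 h.2
          exact Or.inr ⟨a2, a1⟩
      rcases hc with rfl | hc
      · refine loc_pi1 e hΔ.prm (prim_four (DD_prim hp S) ?_)
        exact ((norm_DD hp S).resolve_right fun h => by
          rw [sum_wt hp hS1 hS2] at h
          exact absurd h.1 (by decide)).2
      · have hd0 : ph (K := K) e hz (em0 e D) ≠ 0 := (map_ne_zero _).2 hdK
        have hbv : ph (K := K) e hz (em0 e (2 * Δ)) ≠ 0 := (map_ne_zero _).2 hb0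
        by_cases hzΔ : z ∣ Δ
        · obtain ⟨i, rfl⟩ : ∃ i, fam Δ i = z := ⟨⟨z, (mem_PD hΔ0).2 ⟨hc, hzΔ⟩⟩, rfl⟩
          by_cases hi : i ∈ S
          · refine loc_two e hz ?_ hd0 hbv
            have h1 : qr (fam Δ i) (2 * D') = 1 := by
              rw [qr_mul hc, qr_two hc]
              have h2 := hS2 i hi
              have h3 : wt (fam Δ) i = if (fam Δ i).norm % 8 = 5 then 1 else 0 := rfl
              rw [h3] at h2
              have hi' : i ∉ Sᶜ := fun h => Finset.mem_compl.1 h hi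
              rcases qr_DD hp hi' with ⟨a, b⟩ | ⟨a, b⟩
              · rw [a, add_zero] at h2
                rw [← hD'] at b
                rw [b]
                split_ifs at h2 ⊢ with h5
                · exact absurd h2 (by decide)
                · norm_num
              · rw [a] at h2
                rw [← hD'] at b
                rw [b]
                split_ifs at h2 ⊢ with h5
                · norm_num
                · exact absurd h2 (by decide)
            obtain ⟨s, hs⟩ := sq_of_qr (K := K) e hc h1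
            have h16 : ph (K := K) e hz (em0 e D) * (-4 * ph e hz (em0 e (2 * Δ))) =
                ph e hz (em0 e (im1 * 2 * D)) ^ 2 * ph e hz (em0 e (2 * D')) := by
              have h17 : D * (-4 * (2 * Δ)) = (im1 * 2 * D) ^ 2 * (2 * D') := by
                have h18 : (im1 : ZI) ^ 2 = -1 := by decide
                linear_combination (8 * D) * hDD + (-8 * D ^ 2 * D') * h18
              have h19 := congrArg (fun a => ph (K := K) e hz (em0 e a)) h17
              simp only [map_mul, map_pow, map_neg, map_ofNat] at h19 ⊢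
              linear_combination h19
            rw [h16, hs]
            exact ⟨ph e hz (em0 e (im1 * 2 * D)) * s, by ring⟩
          · refine loc_one e hz ?_ hd0
            apply sq_of_qr e hc
            rcases qr_DD hp hi with ⟨a, b⟩ | ⟨a, b⟩
            · exact b
            · rw [hS1 i hi] at a
              exact absurd a (by decide)
        · apply loc_good e hc
          · exact fun h => (hc.pr.dvd_or_dvd h).elim (not_dvd_two hc) hzΔ
          · exact fun h => hzΔ (h.trans ⟨D', hDD.symm⟩))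
    (fun v => loc_inf e v hdK) hfin
  exact hx

end

end Pool.Agent.D0H92.Q4
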